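import Mathlib

set_option autoImplicit false

/-! # Jones's set function `T` on compact connected Hausdorff spaces -/

namespace Pool.Agent.L7h56.JT

open Set Topology

variable {S : Type*} [TopologicalSpace S]

/-- Jones's set function -/
def T (A : Set S) : Set S :=
  {p | ∀ W : Set S, IsClosed W → IsConnected W → p ∈ interior W → (W ∩ A).Nonempty}

lemma not_mem_T {A : Set S} {p : S} (h : p ∉ T A) :
    ∃ W : Set S, IsClosed W ∧ IsConnected W ∧ p ∈ interior W ∧ ∀ a ∈ A, a ∉ W := by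
  unfold T at h
  simp only [mem_ofPred_eq, not_forall] at h
  obtain ⟨W, h1, h2, h3, h4⟩ := h
  exact ⟨W, h1, h2, h3, fun a ha haW => h4 ⟨a, haW, ha⟩⟩

lemma not_mem_T' {A : Set S} {p : S} {W : Set S} (h1 : IsClosed W) (h2 : IsConnected W)
    (h3 : p ∈ interior W) (h4 : ∀ a ∈ A, a ∉ W) : p ∉ T A := by
  intro h
  obtain ⟨a, haW, haA⟩ := h W h1 h2 h3
  exact h4 a haA haW

lemma T_mono {A B : Set S} (h : A ⊆ B) : T A ⊆ T B := fun _ hp W h1 h2 h3 =>
  (hp W h1 h2 h3).mono (inter_subset_inter_right _ h)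

lemma subset_T (A : Set S) : A ⊆ T A := fun p hp _ _ _ h3 => ⟨p, interior_subset h3, hp⟩

lemma isClosed_T (A : Set S) : IsClosed (T A) := by
  rw [← isOpen_compl_iff, isOpen_iff_mem_nhds]
  intro p hp
  obtain ⟨W, h1, h2, h3, h4⟩ := not_mem_T hp
  filter_upwards [isOpen_interior.mem_nhds h3] with q hq
  exact not_mem_T' h1 h2 hq h4

lemma isClosed_rel : IsClosed {q : S × S | q.1 ∈ T {q.2}} := by
  rw [← isOpen_compl_iff, isOpen_iff_mem_nhds]
  rintro ⟨x, t⟩ hp
  obtain ⟨W, h1, h2, h3, h4⟩ := not_mem_T (A := {t}) (p := x) hp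
  have ht : t ∈ Wᶜ := h4 t rfl
  filter_upwards [(isOpen_interior.prod h1.isOpen_compl).mem_nhds (⟨h3, ht⟩ :
    (x, t) ∈ interior W ×ˢ Wᶜ)] with q hq
  refine not_mem_T' h1 h2 hq.1 ?_
  rintro a rfl
  exact hq.2

/-- lower semicontinuity of `x ↦ T {x}` -/
def Lsc (S : Type*) [TopologicalSpace S] : Prop :=
  ∀ O : Set S, IsOpen O → IsOpen {t : S | (T {t} ∩ O).Nonempty}

lemma trans_T (hl : Lsc S) {x y z : S} (hxy : x ∈ T {y}) (hyz : y ∈ T {z}) : x ∈ T {z} := by
  by_contra hx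
  obtain ⟨W, h1, h2, h3, h4⟩ := not_mem_T hx
  have hsub : {t : S | (T {t} ∩ interior W).Nonempty} ⊆ W := by
    rintro t ⟨w, hw1, hw2⟩
    obtain ⟨a, haW, rfl⟩ := hw1 W h1 h2 hw2
    exact haW
  have hy : y ∈ interior W :=
    mem_interior.2 ⟨_, hsub, hl _ isOpen_interior, ⟨x, hxy, h3⟩⟩
  obtain ⟨a, haW, rfl⟩ := hyz W h1 h2 hy
  exact h4 _ rfl haW

/-- boundary bumping -/
lemma bump [CompactSpace S] [T2Space S] [PreconnectedSpace S] {U : Set S} (hU : IsOpen U)
    (hne : U ≠ univ) {x : S} (hx : x ∈ closure U) :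
    ∃ C : Set S, IsPreconnected C ∧ x ∈ C ∧ C ⊆ closure U ∧ (C ∩ frontier U).Nonempty := by
  classical
  have : CompactSpace (closure U) := isCompact_iff_compactSpace.1 isClosed_closure.isCompact
  let x' : closure U := ⟨x, hx⟩
  refine ⟨Subtype.val '' connectedComponent x', ?_, ⟨x', mem_connectedComponent, rfl⟩, ?_, ?_⟩
  · exact isPreconnected_connectedComponent.image _ continuous_subtype_val.continuousOn
  · rintro _ ⟨y, _, rfl⟩
    exact y.2
  · by_contra hcon
    rw [not_nonempty_iff_eq_empty] at hcon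
    have hK : IsCompact ((Subtype.val : closure U → S) ⁻¹' frontier U) :=
      (isClosed_frontier.preimage continuous_subtype_val).isCompact
    have hemp : ((Subtype.val : closure U → S) ⁻¹' frontier U) ∩
        ⋂ s : {s : Set (closure U) // IsClopen s ∧ x' ∈ s}, (s : Set (closure U)) = ∅ := by
      rw [← connectedComponent_eq_iInter_isClopen x']
      rw [eq_empty_iff_forall_notMem]
      rintro y ⟨hy1, hy2⟩
      have : (y : S) ∈ (Subtype.val '' connectedComponent x') ∩ frontier U := ⟨⟨y, hy2, rfl⟩, hy1⟩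
      rw [hcon] at this
      exact this
    have : Nonempty {s : Set (closure U) // IsClopen s ∧ x' ∈ s} :=
      ⟨⟨univ, isClopen_univ, mem_univ _⟩⟩
    obtain ⟨⟨s, hs1, hs2⟩, hs3⟩ := hK.elim_directed_family_closed
      (fun s : {s : Set (closure U) // IsClopen s ∧ x' ∈ s} => (s : Set (closure U)))
      (fun s => s.2.1.isClosed) hemp (by
        intro a b
        exact ⟨⟨a.1 ∩ b.1, a.2.1.inter b.2.1, ⟨a.2.2, b.2.2⟩⟩, inter_subset_left,
          inter_subset_right⟩)
    simp only at hs3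
    have hc : IsClosed (Subtype.val '' s : Set S) :=
      (isClosed_closure.isClosedEmbedding_subtypeVal).isClosedMap s hs1.isClosed
    have ho : IsOpen (Subtype.val '' s : Set S) := by
      obtain ⟨G, hG, hGs⟩ := isOpen_induced_iff.1 hs1.isOpen
      have : (Subtype.val '' s : Set S) = G ∩ U := by
        ext y
        constructor
        · rintro ⟨z, hz, rfl⟩
          refine ⟨by rw [← hGs] at hz; exact hz, ?_⟩
          by_contra hzU
          have : z ∈ ((Subtype.val : closure U → S) ⁻¹' frontier U) ∩ s := by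
            refine ⟨?_, hz⟩
            show (z : S) ∈ frontier U
            rw [hU.frontier_eq]
            exact ⟨z.2, hzU⟩
          rw [hs3] at this
          exact this
        · rintro ⟨h1, h2⟩
          refine ⟨⟨y, subset_closure h2⟩, ?_, rfl⟩
          rw [← hGs]
          exact h1
      rw [this]
      exact hG.inter hU
    have huniv := IsClopen.eq_univ ⟨hc, ho⟩ ⟨x, x', hs2, rfl⟩
    apply hne
    rw [eq_univ_iff_forall]
    intro y
    have hy : y ∈ (Subtype.val '' s : Set S) := by rw [huniv]; trivial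
    obtain ⟨z, hz, rfl⟩ := hy
    by_contra hzU
    have : z ∈ ((Subtype.val : closure U → S) ⁻¹' frontier U) ∩ s := by
      refine ⟨?_, hz⟩
      show (z : S) ∈ frontier U
      rw [hU.frontier_eq]
      exact ⟨z.2, hzU⟩
    rw [hs3] at this
    exact this

lemma isClosed_connectedComponentIn {F : Set S} (hF : IsClosed F) (x : S) :
    IsClosed (connectedComponentIn F x) := by
  by_cases hx : x ∈ F
  · have h1 : IsPreconnected (closure (connectedComponentIn F x)) :=
      isPreconnected_connectedComponentIn.closure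
    have h2 : closure (connectedComponentIn F x) ⊆ F :=
      closure_minimal (connectedComponentIn_subset F x) hF
    have h3 := h1.subset_connectedComponentIn (subset_closure (mem_connectedComponentIn hx)) h2
    exact closure_subset_iff_isClosed.1 h3
  · rw [connectedComponentIn_eq_empty hx]
    exact isClosed_empty

lemma sep [CompactSpace S] [T2Space S] [PreconnectedSpace S] {t : S} {P Q : Set S}
    (hP : IsClosed P) (hQ : IsClosed Q) (hd : Disjoint P Q) (hcov : T {t} ⊆ P ∪ Q) (ht : t ∈ P)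
    (hQT : Q ⊆ T {t}) : Q = ∅ := by
  classical
  by_contra hne
  obtain ⟨x, hx⟩ := nonempty_iff_ne_empty.2 hne
  obtain ⟨U, V, hU, hV, hQU, hPV, hUV⟩ := normal_separation hQ hP hd.symm
  have hclV : ∀ y ∈ closure U, y ∉ V := by
    intro y hy hyV
    have : closure U ⊆ Vᶜ := closure_minimal (fun z hz hzV => hUV.le_bot ⟨hz, hzV⟩)
      hV.isClosed_compl
    exact this hy hyV
  have hUne : U ≠ univ := by
    intro h
    exact hclV t (subset_closure (h ▸ mem_univ t)) (hPV ht)
  have hfr : ∀ z ∈ frontier U, z ∉ T {t} := by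
    intro z hz hzT
    rw [hU.frontier_eq] at hz
    rcases hcov hzT with h | h
    · exact hclV z hz.1 (hPV h)
    · exact hz.2 (hQU h)
  have hch : ∀ z : frontier U, ∃ W : Set S, IsClosed W ∧ IsConnected W ∧ (z : S) ∈ interior W ∧
      t ∉ W := by
    intro z
    obtain ⟨W, h1, h2, h3, h4⟩ := not_mem_T (hfr z z.2)
    exact ⟨W, h1, h2, h3, h4 t rfl⟩
  choose W hW1 hW2 hW3 hW4 using hch
  obtain ⟨fs, hfs⟩ := isClosed_frontier.isCompact.elim_nhds_subcover' (s := frontier U)
    (fun z hz => interior (W ⟨z, hz⟩)) (fun z hz => isOpen_interior.mem_nhds (hW3 ⟨z, hz⟩))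
  set R : Set S := closure U ∪ ⋃ z ∈ fs, W z with hR
  have hRc : IsClosed R :=
    isClosed_closure.union (isClosed_biUnion_finset fun z _ => hW1 z)
  have hWR : ∀ z ∈ fs, W z ⊆ R := fun z hz w hw =>
    Or.inr (mem_iUnion₂.2 ⟨z, hz, hw⟩)
  have htR : t ∉ R := by
    rintro (h | h)
    · exact hclV t h (hPV ht)
    · obtain ⟨z, _, hz⟩ := mem_iUnion₂.1 h
      exact hW4 z hz
  have hzW : ∀ z : frontier U, (z : S) ∈ W z := fun z => interior_subset (hW3 z)
  have hWC : ∀ z ∈ fs, W z ⊆ connectedComponentIn R z := fun z hz =>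
    (hW2 z).isPreconnected.subset_connectedComponentIn (hzW z) (hWR z hz)
  have hcovR : ∀ y ∈ R, ∃ z ∈ fs, y ∈ connectedComponentIn R (z : S) := by
    rintro y (hy | hy)
    · obtain ⟨C, hC1, hyC, hC2, w, hwC, hwf⟩ := bump hU hUne hy
      obtain ⟨z, hz, hwz⟩ := mem_iUnion₂.1 (hfs hwf)
      have hwW : w ∈ W z := interior_subset hwz
      refine ⟨z, hz, ?_⟩
      have h1 : IsPreconnected (C ∪ W z) := hC1.union w hwC hwW (hW2 z).isPreconnected
      exact h1.subset_connectedComponentIn (Or.inr (hzW z))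
        (union_subset (hC2.trans subset_union_left) (hWR z hz)) (Or.inl hyC)
    · obtain ⟨z, hz, hyz⟩ := mem_iUnion₂.1 hy
      exact ⟨z, hz, hWC z hz hyz⟩
  have hxR : x ∈ interior R := mem_interior.2
    ⟨U, subset_closure.trans subset_union_left, hU, hQU hx⟩
  obtain ⟨i, hi, hxi⟩ := hcovR x (interior_subset hxR)
  have hCx : connectedComponentIn R x = connectedComponentIn R (i : S) :=
    (connectedComponentIn_eq hxi).symm
  -- the union of the components without `x`
  set Z : Set S := ⋃ z ∈ fs.filter (fun z : frontier U => x ∉ connectedComponentIn R (z : S)),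
    connectedComponentIn R (z : S) with hZ
  have hZc : IsClosed Z := isClosed_biUnion_finset fun z _ => isClosed_connectedComponentIn hRc _
  have hxZ : x ∉ Z := by
    intro h
    obtain ⟨z, hz, hxz⟩ := mem_iUnion₂.1 h
    exact (Finset.mem_filter.1 hz).2 hxz
  have hsub : interior R ∩ Zᶜ ⊆ connectedComponentIn R x := by
    rintro y ⟨hy1, hy2⟩
    obtain ⟨z, hz, hyz⟩ := hcovR y (interior_subset hy1)
    have hxz : x ∈ connectedComponentIn R (z : S) := by
      by_contra hxz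
      exact hy2 (mem_iUnion₂.2 ⟨z, Finset.mem_filter.2 ⟨hz, hxz⟩, hyz⟩)
    rw [← connectedComponentIn_eq hxz]
    exact hyz
  have hxint : x ∈ interior (connectedComponentIn R x) :=
    mem_interior.2 ⟨_, hsub, isOpen_interior.inter hZc.isOpen_compl, hxR, hxZ⟩
  have hcon : IsConnected (connectedComponentIn R x) :=
    ⟨⟨x, interior_subset hxint⟩, isPreconnected_connectedComponentIn⟩
  refine not_mem_T' (isClosed_connectedComponentIn hRc x) hcon hxint ?_ (hQT hx)
  rintro a rfl ha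
  exact htR (connectedComponentIn_subset _ _ ha)

lemma preconn_T [CompactSpace S] [T2Space S] [PreconnectedSpace S] (t : S) :
    IsPreconnected (T {t}) := by
  rw [isPreconnected_closed_iff]
  intro P Q hP hQ hcov hP1 hQ1
  by_contra hne
  rw [not_nonempty_iff_eq_empty] at hne
  have key : ∀ P Q : Set S, IsClosed P → IsClosed Q → T {t} ⊆ P ∪ Q →
      (T {t} ∩ Q).Nonempty → T {t} ∩ (P ∩ Q) = ∅ → t ∈ P → False := by
    intro P Q hP hQ hcov hQ1 hne ht
    have := sep (t := t) (P := T {t} ∩ P) (Q := T {t} ∩ Q) ((isClosed_T _).inter hP)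
      ((isClosed_T _).inter hQ) (by
        rw [disjoint_left]
        rintro a ⟨h1, h2⟩ ⟨_, h3⟩
        have : a ∈ T {t} ∩ (P ∩ Q) := ⟨h1, h2, h3⟩
        rw [hne] at this
        exact this)
      (fun a ha => (hcov ha).imp (fun h => ⟨ha, h⟩) (fun h => ⟨ha, h⟩))
      ⟨subset_T _ rfl, ht⟩ inter_subset_left
    rw [this] at hQ1
    exact not_nonempty_empty hQ1
  rcases hcov (subset_T _ rfl : t ∈ T {t}) with h | h
  · exact key P Q hP hQ hcov hQ1 hne h
  · exact key Q P hQ hP (by rwa [union_comm]) hP1 (by rwa [inter_comm Q P]) h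

/-- the points whose class is minimal -/
def Min (S : Type*) [TopologicalSpace S] : Set S := {x | ∀ z ∈ T {x}, x ∈ T {z}}

lemma isClosed_Min (hl : Lsc S) : IsClosed (Min S) := by
  rw [← isOpen_compl_iff, isOpen_iff_mem_nhds]
  intro x hx
  simp only [Min, mem_compl_iff, mem_ofPred_eq, not_forall] at hx
  obtain ⟨z, hz, hxz⟩ := hx
  have h1 : {q : S × S | q.1 ∈ T {q.2}}ᶜ ∈ 𝓝 (x, z) := isClosed_rel.isOpen_compl.mem_nhds hxz
  rw [nhds_prod_eq, Filter.mem_prod_iff] at h1
  obtain ⟨X, hX, Z, hZ, hXZ⟩ := h1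
  obtain ⟨Z', hZ', hZo, hzZ⟩ := mem_nhds_iff.1 hZ
  have h2 : {t : S | (T {t} ∩ Z').Nonempty} ∈ 𝓝 x := (hl Z' hZo).mem_nhds ⟨z, hz, hzZ⟩
  filter_upwards [hX, h2] with x' hx' hx''
  obtain ⟨z', hz', hz''⟩ := hx''
  intro hmin
  exact hXZ (⟨hx', hZ' hz''⟩ : (x', z') ∈ X ×ˢ Z) (hmin z' hz')

lemma exists_Min [CompactSpace S] (hl : Lsc S) (y : S) : ∃ m ∈ T {y}, m ∈ Min S := by
  obtain ⟨F, hFy, hF⟩ := zorn_superset_nonempty
    {F : Set S | IsClosed F ∧ F.Nonempty ∧ ∀ x ∈ F, T {x} ⊆ F} (by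
      intro c hc hchain hcne
      refine ⟨⋂₀ c, ⟨isClosed_sInter fun s hs => (hc hs).1, ?_, ?_⟩, fun s hs => sInter_subset_of_mem hs⟩
      · have : Nonempty c := hcne.to_subtype
        refine IsCompact.nonempty_sInter_of_directed_nonempty_isCompact_isClosed ?_
          (fun s hs => (hc hs).2.1) (fun s hs => (hc hs).1.isCompact) (fun s hs => (hc hs).1)
        intro a ha b hb
        rcases hchain.total ha hb with h | h
        · exact ⟨a, ha, subset_rfl, h⟩
        · exact ⟨b, hb, h, subset_rfl⟩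
      · intro x hx a ha s hs
        exact (hc hs).2.2 x (hx s hs) ha)
    (T {y}) ⟨isClosed_T _, ⟨y, subset_T _ rfl⟩, fun x hx a ha => trans_T hl ha hx⟩
  obtain ⟨⟨h1, ⟨m, hm⟩, h3⟩, hmin⟩ := hF
  refine ⟨m, hFy hm, ?_⟩
  intro z hz
  have h4 : T {z} ∈ {F : Set S | IsClosed F ∧ F.Nonempty ∧ ∀ x ∈ F, T {x} ⊆ F} :=
    ⟨isClosed_T _, ⟨z, subset_T _ rfl⟩, fun x hx a ha => trans_T hl ha hx⟩
  exact hmin h4 (h3 z (h3 m hm hz)) hm

/-- the decomposition: `x ∈ T y` is a symmetric relation -/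
lemma all_Min [CompactSpace S] [T2Space S] [ConnectedSpace S] (hl : Lsc S) (p : S) :
    p ∈ Min S := by
  by_contra hp
  -- the set of the points above `p`
  have hup : IsClosed {z : S | p ∈ T {z}} := by
    have : {z : S | p ∈ T {z}} = (fun z => (p, z)) ⁻¹' {q : S × S | q.1 ∈ T {q.2}} := rfl
    rw [this]
    exact isClosed_rel.preimage (by fun_prop)
  have hdis : Disjoint (Min S) {z : S | p ∈ T {z}} := by
    rw [disjoint_left]
    intro z hz hpz
    apply hp
    intro w hw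
    -- `p ∈ T z`, `z` minimal, so `z ∈ T p`; `w ∈ T p ⊆ T z` so `z ∈ T w`, `p ∈ T w`
    exact trans_T hl hpz (hz w (trans_T hl hw hpz))
  obtain ⟨U, V, hU, hV, hMU, hpV, hUV⟩ := normal_separation (isClosed_Min hl) hup hdis
  have hclV : ∀ y ∈ closure U, y ∉ V := by
    intro y hy hyV
    have : closure U ⊆ Vᶜ := closure_minimal (fun z hz hzV => hUV.le_bot ⟨hz, hzV⟩)
      hV.isClosed_compl
    exact this hy hyV
  -- the lower closed set
  set Q : Set S := {x | ∃ o ∈ closure U, x ∈ T {o}} with hQ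
  have hQc : IsClosed Q := by
    have : Q = Prod.fst '' ({q : S × S | q.1 ∈ T {q.2}} ∩ (univ ×ˢ closure U)) := by
      ext x
      constructor
      · rintro ⟨o, ho, hx⟩
        exact ⟨(x, o), ⟨hx, trivial, ho⟩, rfl⟩
      · rintro ⟨⟨a, o⟩, ⟨h1, _, h2⟩, rfl⟩
        exact ⟨o, h2, h1⟩
    rw [this]
    exact ((isClosed_rel.inter (isClosed_univ.prod isClosed_closure)).isCompact.image
      continuous_fst).isClosed
  have hUQ : U ⊆ Q := fun x hx => ⟨x, subset_closure hx, subset_T _ rfl⟩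
  have hpQ : p ∉ Q := by
    rintro ⟨o, ho, hpo⟩
    exact hclV o ho (hpV hpo)
  have hlow : ∀ t ∈ Q, T {t} ⊆ Q := by
    rintro t ⟨o, ho, hto⟩ x hx
    exact ⟨o, ho, trans_T hl hx hto⟩
  have hQconn : IsPreconnected Q := by
    rw [isPreconnected_closed_iff]
    intro K L hK hL hcov hK1 hL1
    by_contra hne
    rw [not_nonempty_iff_eq_empty] at hne
    have hdj : ∀ a ∈ Q, a ∈ K → a ∈ L → False := fun a h1 h2 h3 => by
      have : a ∈ Q ∩ (K ∩ L) := ⟨h1, h2, h3⟩
      rw [hne] at this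
      exact this
    -- `T t` meets `K ∩ Q`
    set A : Set S := {t | (T {t} ∩ (K ∩ Q)).Nonempty} with hA
    have hAc : IsClosed A := by
      have : A = Prod.snd '' ({q : S × S | q.1 ∈ T {q.2}} ∩ ((K ∩ Q) ×ˢ univ)) := by
        ext t
        constructor
        · rintro ⟨x, hx1, hx2⟩
          exact ⟨(x, t), ⟨hx1, hx2, trivial⟩, rfl⟩
        · rintro ⟨⟨x, o⟩, ⟨h1, h2, _⟩, rfl⟩
          exact ⟨x, h1, h2⟩
      rw [this]
      exact ((isClosed_rel.inter ((hK.inter hQc).prod isClosed_univ)).isCompact.image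
        continuous_snd).isClosed
    have hin : ∀ y ∈ Q, y ∈ K → T {y} ⊆ K := by
      intro y hyQ hyK a ha
      by_contra haK
      have haL : a ∈ L := (hcov (hlow y hyQ ha)).resolve_left haK
      have := isPreconnected_closed_iff.1 (preconn_T y) K L hK hL
        ((hlow y hyQ).trans hcov) ⟨y, subset_T _ rfl, hyK⟩ ⟨a, ha, haL⟩
      obtain ⟨b, hb1, hb2, hb3⟩ := this
      exact hdj b (hlow y hyQ hb1) hb2 hb3
    have hAo : IsOpen A := by
      rw [isOpen_iff_mem_nhds]
      rintro t ⟨y, hyt, hyK, hyQ⟩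
      obtain ⟨m, hmy, hm⟩ := exists_Min hl y
      have hmK : m ∈ K := hin y hyQ hyK hmy
      have hmU : m ∈ U := hMU hm
      have hmL : m ∉ L := fun h => hdj m (hUQ hmU) hmK h
      have ho : IsOpen (U ∩ Lᶜ) := hU.inter hL.isOpen_compl
      have hmt : m ∈ T {t} := trans_T hl hmy hyt
      filter_upwards [(hl _ ho).mem_nhds ⟨m, hmt, hmU, hmL⟩] with t' ht'
      obtain ⟨a, ha1, ha2, ha3⟩ := ht'
      exact ⟨a, ha1, (hcov (hUQ ha2)).resolve_right ha3, hUQ ha2⟩
    obtain ⟨k, hkQ, hkK⟩ := hK1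
    have huniv : A = univ := IsClopen.eq_univ ⟨hAc, hAo⟩ ⟨k, k, subset_T _ rfl, hkK, hkQ⟩
    obtain ⟨l, hlQ, hlL⟩ := hL1
    have hlA : l ∈ A := huniv ▸ mem_univ l
    obtain ⟨a, ha1, ha2, ha3⟩ := hlA
    obtain ⟨b, hb1, hb2, hb3⟩ := isPreconnected_closed_iff.1 (preconn_T l) K L hK hL
      ((hlow l hlQ).trans hcov) ⟨a, ha1, ha2⟩ ⟨l, subset_T _ rfl, hlL⟩
    exact hdj b (hlow l hlQ hb1) hb2 hb3
  obtain ⟨m, hmp, hm⟩ := exists_Min hl p
  refine not_mem_T' hQc ⟨⟨m, hUQ (hMU hm)⟩, hQconn⟩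
    (mem_interior.2 ⟨U, hUQ, hU, hMU hm⟩) ?_ hmp
  rintro a rfl
  exact hpQ

lemma symm_T [CompactSpace S] [T2Space S] [ConnectedSpace S] (hl : Lsc S) {x y : S}
    (h : x ∈ T {y}) : y ∈ T {x} := all_Min hl y x h

lemma eq_T [CompactSpace S] [T2Space S] [ConnectedSpace S] (hl : Lsc S) {x y : S}
    (h : x ∈ T {y}) : T {x} = T {y} :=
  Subset.antisymm (fun _ ha => trans_T hl ha h) (fun _ ha => trans_T hl ha (symm_T hl h))

lemma T_univ [CompactSpace S] [T2Space S] [ConnectedSpace S] (hl : Lsc S) {p : S}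
    (hp : (interior (T {p})).Nonempty) (q : S) : T {q} = univ := by
  have ho : IsOpen (T {p}) := by
    rw [isOpen_iff_mem_nhds]
    intro t ht
    obtain ⟨v, hv⟩ := hp
    have hvt : v ∈ T {t} := by rw [eq_T hl ht]; exact interior_subset hv
    filter_upwards [(hl _ isOpen_interior).mem_nhds ⟨v, hvt, hv⟩] with t' ht'
    obtain ⟨z, hz1, hz2⟩ := ht'
    exact trans_T hl (symm_T hl hz1) (interior_subset hz2)
  have huniv : T {p} = univ := IsClopen.eq_univ ⟨isClosed_T _, ho⟩ ⟨p, subset_T _ rfl⟩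
  rw [eq_T hl (huniv ▸ mem_univ q : q ∈ T {p})]
  exact huniv

end Pool.Agent.L7h56.JT
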