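import Pool.Agent.L7h56.JT.Core

set_option autoImplicit false

/-! # Continuity of Jones's set function and decompositions -/

namespace Pool.Agent.L7h56.JT

open Set Topology TopologicalSpace

variable {S : Type*} [TopologicalSpace S]

/-- Jones's set function on the hyperspace of the nonempty closed subsets -/
def TN [CompactSpace S] (A : NonemptyCompacts S) : NonemptyCompacts S :=
  ⟨⟨T (A : Set S), (isClosed_T _).isCompact⟩, A.nonempty.mono (subset_T _)⟩

/-- `S` is not the union of two proper subcontinua -/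
def Indecomposable (S : Type*) [TopologicalSpace S] : Prop :=
  ¬ ∃ A B : Set S, IsClosed A ∧ IsConnected A ∧ IsClosed B ∧ IsConnected B ∧ A ≠ univ ∧
    B ≠ univ ∧ A ∪ B = univ

lemma coe_TN [CompactSpace S] (A : NonemptyCompacts S) : (TN A : Set S) = T (A : Set S) := rfl

lemma coe_sing (p : S) : (({p} : NonemptyCompacts S) : Set S) = {p} := rfl

lemma isOpen_hit {O : Set S} (hO : IsOpen O) :
    IsOpen {K : NonemptyCompacts S | ((K : Set S) ∩ O).Nonempty} :=
  NonemptyCompacts.isOpen_inter_nonempty_of_isOpen hO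

lemma lsc_of_continuous [CompactSpace S]
    (h : Continuous fun p : S => TN ({p} : NonemptyCompacts S)) : Lsc S := by
  intro O hO
  exact (isOpen_hit hO).preimage h

attribute [local instance] TopologicalSpace.vietoris in
lemma continuous_of_lsc [CompactSpace S] [T2Space S] (h : Lsc S) :
    Continuous fun p : S => TN ({p} : NonemptyCompacts S) := by
  rw [NonemptyCompacts.isEmbedding_coe.continuous_iff, vietoris.continuous_iff]
  constructor
  · intro U hU
    have h1 : (((↑) : NonemptyCompacts S → Set S) ∘ fun p : S => TN ({p} : NonemptyCompacts S)) ⁻¹'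
        U.powerset = (Prod.snd '' ({q : S × S | q.1 ∈ T {q.2}} ∩ (Uᶜ ×ˢ univ)))ᶜ := by
      ext t
      constructor
      · rintro ht ⟨⟨x, o⟩, ⟨h1, h2, _⟩, rfl⟩
        exact h2 (ht h1)
      · intro ht x hx
        by_contra hxU
        exact ht ⟨(x, t), ⟨hx, hxU, trivial⟩, rfl⟩
    rw [h1]
    exact ((isClosed_rel.inter (hU.isClosed_compl.prod isClosed_univ)).isCompact.image
      continuous_snd).isClosed.isOpen_compl
  · intro F hF
    rw [← isOpen_compl_iff]
    have h1 : ((((↑) : NonemptyCompacts S → Set S) ∘ fun p : S =>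
        TN ({p} : NonemptyCompacts S)) ⁻¹' F.powerset)ᶜ = {t : S | (T {t} ∩ Fᶜ).Nonempty} := by
      ext t
      show ¬ (T {t} ⊆ F) ↔ _
      rw [← inter_compl_nonempty_iff]
      rfl
    rw [h1]
    exact h _ hF.isOpen_compl

/-- the sets `T p` form a decomposition of `S`, and the union of those which meet an open set is
open -/
def OpenDecomposition (S : Type*) [TopologicalSpace S] : Prop :=
  (∀ p q : S, T {p} = T {q} ∨ Disjoint (T {p}) (T {q})) ∧
    ∀ O : Set S, IsOpen O → IsOpen (⋃ p ∈ O, T {p})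

lemma dec_of_lsc [CompactSpace S] [T2Space S] [ConnectedSpace S] (hl : Lsc S) :
    OpenDecomposition S := by
  refine ⟨fun p q => ?_, fun O hO => ?_⟩
  · by_cases h : Disjoint (T {p}) (T {q})
    · exact Or.inr h
    · obtain ⟨x, hx1, hx2⟩ := not_disjoint_iff.1 h
      exact Or.inl ((eq_T hl hx1).symm.trans (eq_T hl hx2))
  · have : (⋃ p ∈ O, T {p}) = {t : S | (T {t} ∩ O).Nonempty} := by
      ext t
      simp only [mem_iUnion, exists_prop]
      constructor
      · rintro ⟨p, hp, ht⟩
        exact ⟨p, symm_T hl ht, hp⟩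
      · rintro ⟨p, hp, hpO⟩
        exact ⟨p, hpO, symm_T hl hp⟩
    rw [this]
    exact hl O hO

lemma lsc_of_dec (hd : OpenDecomposition S) : Lsc S := by
  have hs : ∀ x y : S, x ∈ T {y} → y ∈ T {x} := by
    intro x y hxy
    rcases hd.1 x y with h | h
    · rw [h]
      exact subset_T _ rfl
    · exact absurd hxy (disjoint_left.1 h (subset_T _ rfl))
  intro O hO
  have : {t : S | (T {t} ∩ O).Nonempty} = ⋃ p ∈ O, T {p} := by
    ext t
    simp only [mem_iUnion, exists_prop]
    constructor
    · rintro ⟨p, hp, hpO⟩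
      exact ⟨p, hpO, hs _ _ hp⟩
    · rintro ⟨p, hp, ht⟩
      exact ⟨p, hs _ _ ht, hp⟩
  rw [this]
  exact hd.2 O hO

lemma indec (h : ∀ q : S, T {q} = univ) : Indecomposable S := by
  rintro ⟨A, B, hA, hA', hB, hB', hAne, hBne, hAB⟩
  obtain ⟨a, ha⟩ := (ne_univ_iff_exists_notMem B).1 hBne
  obtain ⟨b, hb⟩ := (ne_univ_iff_exists_notMem A).1 hAne
  have h1 : a ∈ interior A := mem_interior.2 ⟨Bᶜ, fun x hx =>
    (hAB ▸ mem_univ x : x ∈ A ∪ B).resolve_right hx, hB.isOpen_compl, ha⟩
  refine not_mem_T' hA hA' h1 ?_ ((h b).symm ▸ mem_univ a : a ∈ T {b})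
  rintro x rfl
  exact hb

end Pool.Agent.L7h56.JT
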